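import Pool.Agent.Q283.GA.Dens
import Pool.Agent.Y699.Pd

/-!
# Counting primary Gaussian primes (modulo `2 + 2i`) by Frobenius elements, with the norm in any class

After `Pool.Agent.Q283.GA.Count` and `Pool.Agent.Q283.GA.Dens` (primes `1` modulo `4`, norm `1`).
-/

set_option autoImplicit false
set_option linter.unusedSectionVars false
set_option linter.style.haveILetI false

namespace Pool.Agent.U695.QL

open NumberField Filter Topology Finset Pool.Agent.W401.Cheb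
open Pool.Agent.Y715.Gi (ev ev_apply)
open Pool.Agent.Y715.Rec (norm_eq unit_cases)
open Pool.Agent.Y715.Qr (qs)
open Q283.TW (ng)
open Q283.GA
open Pool.Agent.Y699 (PP exists_Um)

/-- the number of the primary primes of norm `n` with the property `T` -/
noncomputable def FT (T : GaussianInt → Prop) (n : ℕ) : ℕ :=
  Nat.card {π : GaussianInt // PP π ∧ π.norm = n ∧ T π}

/-- the number of the primary primes of norm at most `X` with the property `T` -/
noncomputable def NT (T : GaussianInt → Prop) (X : ℕ) : ℕ :=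
  {π : GaussianInt | PP π ∧ π.norm ≤ X ∧ T π}.ncard

section
variable {L : Type} [Field L] [NumberField L] [IsGalois ℚ L] {Z : 𝓞 L} (hZ : Z ^ 2 = -1)

open scoped Classical in
theorem sum_eq (C : Set Gal(L/ℚ)) (T : GaussianInt → Prop) {p : ℕ} [hp : Fact p.Prime]
    (h : TorAt L p) (h2 : p ≠ 2)
    (hT : ∀ (φ : 𝓞 L →+* AlgebraicClosure (ZMod p)) (g : Gal(L/ℚ)), HasFrob p φ g →
      (g ∈ C ↔ ∃ π, PP π ∧ π.norm = p ∧ φ (ev Z hZ π) = 0 ∧ T π)) :
    2 * ∑ g ∈ C.toFinset, xp L g p = FT T p * Nat.card Gal(L/ℚ) := by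
  have hfin := finite_hom h
  have hfin2 : Finite {π : GaussianInt // PP π ∧ π.norm = p ∧ T π} := by
    refine Set.Finite.subset (fin_nr p) ?_
    rintro π ⟨-, h1, -⟩
    exact h1.le
  haveI := Fintype.ofFinite {π : GaussianInt // PP π ∧ π.norm = p ∧ T π}
  have e1 : ∑ g ∈ C.toFinset, xp L g p =
      Nat.card {φ : 𝓞 L →+* AlgebraicClosure (ZMod p) //
        ∃ π, PP π ∧ π.norm = p ∧ φ (ev Z hZ π) = 0 ∧ T π} := by
    have e2 : (Σ g : C.toFinset, {φ : 𝓞 L →+* AlgebraicClosure (ZMod p) // HasFrob p φ g.1}) ≃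
        {φ : 𝓞 L →+* AlgebraicClosure (ZMod p) //
          ∃ π, PP π ∧ π.norm = p ∧ φ (ev Z hZ π) = 0 ∧ T π} := by
      refine Equiv.ofBijective (fun x => ⟨x.2.1, (hT _ _ x.2.2).1 (Set.mem_toFinset.1 x.1.2)⟩)
        ⟨?_, ?_⟩
      · rintro ⟨⟨g, hg⟩, φ, hφ⟩ ⟨⟨g', hg'⟩, φ', hφ'⟩ he
        simp only [Subtype.mk.injEq] at he
        subst he
        have : g = g' := frob_unique h hφ hφ'
        subst this
        rfl
      · rintro ⟨φ, hφ⟩
        obtain ⟨g, hg⟩ := exists_frob h φ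
        exact ⟨⟨⟨g, Set.mem_toFinset.2 ((hT _ _ hg).2 hφ)⟩, φ, hg⟩, rfl⟩
    rw [← Nat.card_congr e2, Nat.card_sigma, ← Finset.sum_coe_sort]
    refine Finset.sum_congr rfl fun g _ => ?_
    unfold xp
    rw [dif_pos hp.out]
  have e3 : Nat.card {φ : 𝓞 L →+* AlgebraicClosure (ZMod p) //
      ∃ π, PP π ∧ π.norm = p ∧ φ (ev Z hZ π) = 0 ∧ T π} =
      ∑ π : {π : GaussianInt // PP π ∧ π.norm = p ∧ T π},
        Nat.card {φ : 𝓞 L →+* AlgebraicClosure (ZMod p) // φ (ev Z hZ π.1) = 0} := by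
    rw [← Nat.card_sigma]
    symm
    refine Nat.card_congr (Equiv.ofBijective
      (fun x => ⟨x.2.1, x.1.1, x.1.2.1, x.1.2.2.1, x.2.2, x.1.2.2.2⟩) ⟨?_, ?_⟩)
    · rintro ⟨⟨π, hπ⟩, φ, hφ⟩ ⟨⟨π', hπ'⟩, φ', hφ'⟩ he
      simp only [Subtype.mk.injEq] at he
      subst he
      have h5 : π = π' := hπ.1.eq_of_dvd hπ'.1 ((ker_iff hZ hπ.1.pr hφ π').1 hφ')
      subst h5
      rfl
    · rintro ⟨φ, π, h1, h2, h3, h4⟩
      exact ⟨⟨⟨π, h1, h2, h4⟩, φ, h3⟩, rfl⟩
  rw [e1, e3, Finset.mul_sum]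
  rw [Finset.sum_congr rfl fun π _ => card_above hZ h h2 π.2.2.1, Finset.sum_const,
    Finset.card_univ, ← Nat.card_eq_fintype_card, smul_eq_mul]
  rfl

open scoped Classical in
/-- **Density of a Frobenius set, for primes of degree one of the Gaussian integers.** -/
theorem dens_one (C : Set Gal(L/ℚ)) (T : GaussianInt → Prop) (D₀ : ℕ) (hD₀ : 0 < D₀)
    (hT : ∀ (p : ℕ) [Fact p.Prime], ¬ p ∣ D₀ →
      ∀ (φ : 𝓞 L →+* AlgebraicClosure (ZMod p)) (g : Gal(L/ℚ)), HasFrob p φ g →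
      (g ∈ C ↔ ∃ π, PP π ∧ π.norm = p ∧ φ (ev Z hZ π) = 0 ∧ T π)) :
    Tendsto (M fun p => (FT T p : ℝ)) atTop
      (𝓝 (2 * (Nat.card C : ℝ) / (Nat.card Gal(L/ℚ) : ℝ))) := by
  obtain ⟨D₁, hD₁, htor⟩ := torsor L
  have hG : (Nat.card Gal(L/ℚ) : ℝ) ≠ 0 := by
    have := Nat.card_pos (α := Gal(L/ℚ))
    positivity
  have key : ∀ p : ℕ, p.Prime → ¬ p ∣ 2 * D₀ * D₁ → (FT T p : ℝ) =
      (2 * (Nat.card Gal(L/ℚ) : ℝ)⁻¹) * ∑ g ∈ C.toFinset, (xp L g p : ℝ) := by
    intro p hp hpD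
    haveI : Fact p.Prime := ⟨hp⟩
    have h0 : ¬ p ∣ D₀ := fun h => hpD ((h.mul_left _).mul_right _)
    have h1 : ¬ p ∣ D₁ := fun h => hpD (h.mul_left _)
    have h2 : p ≠ 2 := by
      rintro rfl
      exact hpD (((by norm_num : 2 ∣ 2).mul_right _).mul_right _)
    have h4 := sum_eq hZ C T (htor p h1) h2 (hT p h0)
    have h5 : 2 * ∑ g ∈ C.toFinset, (xp L g p : ℝ) = (FT T p : ℝ) * (Nat.card Gal(L/ℚ) : ℝ) := by
      exact_mod_cast h4
    field_simp
    linear_combination -h5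
  refine M_congr (Nat.mul_pos (Nat.mul_pos (by norm_num) hD₀) hD₁) key ?_
  have h4 : ∀ N, M (fun p => (2 * (Nat.card Gal(L/ℚ) : ℝ)⁻¹) * ∑ g ∈ C.toFinset, (xp L g p : ℝ)) N
      = (2 * (Nat.card Gal(L/ℚ) : ℝ)⁻¹) * ∑ g ∈ C.toFinset, M (fun p => (xp L g p : ℝ)) N := by
    intro N
    rw [M_smul, M_sum]
  have h5 : Tendsto (fun N => (2 * (Nat.card Gal(L/ℚ) : ℝ)⁻¹) *
      ∑ g ∈ C.toFinset, M (fun p => (xp L g p : ℝ)) N) atTop
      (𝓝 ((2 * (Nat.card Gal(L/ℚ) : ℝ)⁻¹) * ∑ _g ∈ C.toFinset, 1)) :=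
    (tendsto_finsetSum _ fun g _ => chebotarev L g).const_mul _
  have h6 : (2 * (Nat.card Gal(L/ℚ) : ℝ)⁻¹) * ∑ _g ∈ C.toFinset, (1 : ℝ)
      = 2 * (Nat.card C : ℝ) / (Nat.card Gal(L/ℚ) : ℝ) := by
    rw [Finset.sum_const, nsmul_eq_mul, mul_one, Set.toFinset_card, ← Nat.card_eq_fintype_card]
    field_simp
  rw [h6] at h5
  exact h5.congr fun N => (h4 N).symm

end

/-- a primary prime whose norm is not a prime number is a rational integer -/
theorem inert_form {π : GaussianInt} (h : PP π) (hn : ¬ (π.norm).natAbs.Prime) : π.im = 0 := by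
  rcases h.cases with ⟨p, hp, -, h1⟩ | ⟨q, -, -, h1⟩
  · exfalso
    apply hn
    rw [h1, Int.natAbs_natCast]
    exact hp
  · rw [h1, Zsqrtd.im_neg, Zsqrtd.im_natCast, neg_zero]

theorem few_inert (T : GaussianInt → Prop) (X : ℕ) :
    {π : GaussianInt | PP π ∧ π.norm ≤ X ∧ T π ∧ ¬ (π.norm).natAbs.Prime}.ncard
      ≤ 2 * X.sqrt + 1 := by
  have h1 : {π : GaussianInt | PP π ∧ π.norm ≤ X ∧ T π ∧ ¬ (π.norm).natAbs.Prime} ⊆
      (((Finset.Icc (-(X.sqrt : ℤ)) X.sqrt).image fun n : ℤ => (⟨n, 0⟩ : GaussianInt) :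
        Finset GaussianInt) : Set GaussianInt) := by
    rintro π ⟨h1, h2, -, h4⟩
    have h5 := inert_form h1 h4
    rw [Finset.mem_coe, Finset.mem_image]
    refine ⟨π.re, ?_, ?_⟩
    · rw [norm_eq, h5] at h2
      have h6 : π.re.natAbs ^ 2 ≤ X := by
        have : ((π.re.natAbs ^ 2 : ℕ) : ℤ) ≤ X := by
          push_cast
          rw [sq_abs]
          linarith
        exact_mod_cast this
      have h7 : π.re.natAbs ≤ X.sqrt := Nat.le_sqrt'.2 h6
      rw [Finset.mem_Icc]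
      omega
    · ext
      · rfl
      · exact h5.symm
  have h2 := Set.ncard_le_ncard h1 (Finset.finite_toSet _)
  rw [Set.ncard_coe_finset] at h2
  refine h2.trans (Finset.card_image_le.trans ?_)
  rw [Int.card_Icc]
  omega

theorem NT_split (T : GaussianInt → Prop) (X : ℕ) :
    NT T X = ∑ p ∈ pr X, FT T p +
      {π : GaussianInt | PP π ∧ π.norm ≤ X ∧ T π ∧ ¬ (π.norm).natAbs.Prime}.ncard := by
  classical
  have hf := fin_nr X
  set F : Finset GaussianInt := hf.toFinset.filter fun π => PP π ∧ T π with hF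
  have hmem : ∀ π, π ∈ F ↔ PP π ∧ π.norm ≤ X ∧ T π := by
    intro π
    rw [hF, Finset.mem_filter, Set.Finite.mem_toFinset]
    constructor
    · rintro ⟨a, b, c⟩; exact ⟨b, a, c⟩
    · rintro ⟨b, a, c⟩; exact ⟨a, b, c⟩
  have e1 : NT T X = F.card := by
    unfold NT
    rw [← Set.ncard_coe_finset]
    congr 1
    ext π
    rw [Finset.mem_coe, hmem]
    rfl
  have e2 : {π : GaussianInt | PP π ∧ π.norm ≤ X ∧ T π ∧ ¬ (π.norm).natAbs.Prime}.ncard =
      (F.filter fun π => ¬ (π.norm).natAbs.Prime).card := by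
    rw [← Set.ncard_coe_finset]
    congr 1
    ext π
    rw [Finset.mem_coe, Finset.mem_filter, hmem]
    constructor
    · rintro ⟨a, b, c, d⟩; exact ⟨⟨a, b, c⟩, d⟩
    · rintro ⟨⟨a, b, c⟩, d⟩; exact ⟨a, b, c, d⟩
  have e3 : (F.filter fun π => (π.norm).natAbs.Prime).card = ∑ p ∈ pr X, FT T p := by
    rw [Finset.card_eq_sum_card_fiberwise (f := fun π => (π.norm).natAbs) (t := pr X)]
    · refine Finset.sum_congr rfl fun p hp => ?_
      unfold FT
      rw [mem_pr] at hp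
      refine (Nat.subtype_card _ fun π => ?_).symm
      rw [Finset.mem_filter, Finset.mem_filter, hmem]
      have h2 := norm_nn π
      constructor
      · rintro ⟨⟨⟨a, b, c⟩, d⟩, e⟩
        exact ⟨a, by omega, c⟩
      · rintro ⟨a, b, c⟩
        have h5 : (π.norm).natAbs = p := by omega
        exact ⟨⟨⟨a, by omega, c⟩, by rw [h5]; exact hp.2⟩, h5⟩
    · intro π hπ
      rw [Finset.mem_coe, Finset.mem_filter, hmem] at hπ
      rw [Finset.mem_coe, mem_pr]
      refine ⟨?_, hπ.2⟩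
      have := hπ.1.2.1
      have h2 := norm_nn π
      show (π.norm).natAbs ≤ X
      omega
  rw [e1, e2, ← e3, Finset.card_filter_add_card_filter_not]

/-- the mean value of the primes of degree one determines the number of all primes -/
theorem NT_tendsto {T : GaussianInt → Prop} {c : ℝ}
    (h : Tendsto (M fun p => (FT T p : ℝ)) atTop (𝓝 c)) :
    Tendsto (fun X : ℕ => (NT T X : ℝ) / (Nat.primeCounting X : ℝ)) atTop (𝓝 c) := by
  have h1 : Tendsto (fun X : ℕ =>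
      (({π : GaussianInt | PP π ∧ π.norm ≤ X ∧ T π ∧ ¬ (π.norm).natAbs.Prime}.ncard : ℕ) : ℝ) /
        (Nat.primeCounting X : ℝ)) atTop (𝓝 0) := by
    refine squeeze_zero (fun X => by positivity) (fun X => ?_) Q283.TC.sqrt_div_pc
    refine div_le_div_of_nonneg_right ?_ (Nat.cast_nonneg _)
    exact_mod_cast few_inert T X
  have h2 := h.add h1
  rw [add_zero] at h2
  refine h2.congr fun X => ?_
  rw [NT_split]
  unfold M
  push_cast
  rw [add_div]

theorem exists_above {L : Type} [Field L] [NumberField L] [IsGalois ℚ L] {Z : 𝓞 L}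
    (hZ : Z ^ 2 = -1) {p : ℕ} [hp : Fact p.Prime] {φ : 𝓞 L →+* AlgebraicClosure (ZMod p)}
    (hp4 : p % 4 = 1) : ∃ π, PP π ∧ π.norm = p ∧ φ (ev Z hZ π) = 0 := by
  set I : Ideal GaussianInt := RingHom.ker (φ.comp (ev Z hZ)) with hI
  have hmem : ∀ x, x ∈ I ↔ φ (ev Z hZ x) = 0 := fun x => Iff.rfl
  have hpI : ((p : ℕ) : GaussianInt) ∈ I := by
    rw [hmem, map_natCast, map_natCast]
    exact CharP.cast_eq_zero _ p
  have hp0 : ((p : ℕ) : GaussianInt) ≠ 0 := by
    exact_mod_cast hp.out.ne_zero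
  have hIb : I ≠ ⊥ := by
    intro h
    rw [h] at hpI
    exact hp0 (Ideal.mem_bot.1 hpI)
  haveI : I.IsPrime := RingHom.ker_isPrime _
  have hpr := Submodule.IsPrincipal.prime_generator_of_isPrime I hIb
  set ρ := Submodule.IsPrincipal.generator I with hρ
  have hρI : φ (ev Z hZ ρ) = 0 := (hmem ρ).1 (Submodule.IsPrincipal.generator_mem I)
  have ht := im_z φ hZ
  obtain ⟨c, hc⟩ := (ker_iff hZ hpr hρI _).1 ((hmem _).1 hpI)
  have h2 : (ρ.norm).natAbs * (c.norm).natAbs = p ^ 2 := by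
    rw [← Int.natAbs_mul, ← Zsqrtd.norm_mul, ← hc, Zsqrtd.norm_natCast, Int.natAbs_mul,
      Int.natAbs_natCast, pow_two]
  have hnn := norm_nn ρ
  have hnρ : ρ.norm = p := by
    obtain ⟨i, hi, hi2⟩ := (Nat.dvd_prime_pow hp.out).1 (Dvd.intro _ h2)
    interval_cases i
    · exfalso
      rw [pow_zero] at hi2
      exact hpr.not_isUnit (Zsqrtd.norm_eq_one_iff.1 hi2)
    · rw [pow_one] at hi2
      omega
    · exfalso
      have hcu : IsUnit c := by
        apply Zsqrtd.norm_eq_one_iff.1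
        rw [hi2] at h2
        have hr0 : 0 < p ^ 2 := by positivity [hp.out.pos]
        exact Nat.eq_of_mul_eq_mul_left hr0 (by rw [h2, mul_one])
      have hpd : ((p : ℕ) : GaussianInt) ∣ ρ := by
        rw [hc]
        obtain ⟨u, rfl⟩ := hcu
        exact ⟨(u⁻¹ : GaussianIntˣ), by rw [mul_assoc, Units.mul_inv, mul_one]⟩
      have hfix : (φ Z) ^ p = φ Z := by
        have hz4 : (φ Z) ^ 4 = 1 := by
          have : (φ Z) ^ 4 = ((φ Z) ^ 2) ^ 2 := by ring
          rw [this, ht]; ring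
        obtain ⟨m, hm⟩ : ∃ m, 4 * m + 1 = p := ⟨p / 4, by omega⟩
        have h5 : (φ Z) ^ (4 * m + 1) = φ Z := by
          rw [pow_add, pow_mul, hz4, one_pow, one_mul, pow_one]
        rwa [hm] at h5
      obtain ⟨z, hz⟩ := (Q283.TW.fixed_iff _).1 hfix
      have h6 : ρ ∣ ii - ((z.val : ℤ) : GaussianInt) := by
        rw [← ker_iff hZ hpr hρI, map_sub, map_sub, map_intCast, map_intCast, sub_eq_zero]
        have e1 : ev Z hZ ii = Z := by
          rw [ev_apply]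
          have a1 : ii.re = 0 := rfl
          have a2 : ii.im = 1 := rfl
          rw [a1, a2]
          push_cast
          ring
        rw [e1, ← hz, Int.cast_natCast, ← map_natCast (algebraMap (ZMod p) (AlgebraicClosure (ZMod p))),
          ZMod.natCast_zmod_val]
      obtain ⟨d, hd⟩ := hpd.trans h6
      have h9 := congrArg Zsqrtd.im hd
      rw [Zsqrtd.im_sub, Zsqrtd.im_intCast, Zsqrtd.im_mul, Zsqrtd.re_natCast,
        Zsqrtd.im_natCast] at h9
      have a2 : ii.im = 1 := rfl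
      rw [a2] at h9
      have h10 : (p : ℤ) ∣ 1 := ⟨d.im, by linarith⟩
      have h11 : p ∣ 1 := by exact_mod_cast h10
      exact hp.out.one_lt.ne' (Nat.dvd_one.1 h11)
  obtain ⟨u, hu1, hu2⟩ := exists_Um (a := ρ) (by rw [hnρ]; omega)
  have hu : IsUnit u := (Zsqrtd.norm_eq_one_iff' (by norm_num) u).1 hu1
  refine ⟨u * ρ, ⟨?_, hu2⟩, ?_, ?_⟩
  · obtain ⟨v, rfl⟩ := hu
    exact (associated_unit_mul_left ρ (v : GaussianInt) v.isUnit).symm.prime hpr
  · rw [Zsqrtd.norm_mul, hu1, one_mul, hnρ]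
  · rw [map_mul, map_mul, hρI, mul_zero]

section
variable {L : Type} [Field L] [NumberField L] [IsGalois ℚ L] {P : Finset GaussianInt} {k : ℕ}
  (D : DatC L P k)

/-- powers modulo the order -/
theorem pow_class {R : Type*} [CommRing R] [IsDomain R] {z : R} {n : ℕ} (hn : 0 < n)
    (hz : IsPrimitiveRoot z n) (a b : ℕ) : z ^ a = z ^ b ↔ (n : ℤ) ∣ (b : ℤ) - a := by
  have h0 : z ≠ 0 := ne_zero_of_prim hn.ne' hz
  have key : ∀ a b : ℕ, a ≤ b → (z ^ a = z ^ b ↔ (n : ℤ) ∣ (b : ℤ) - a) := by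
    intro a b hab
    obtain ⟨c, rfl⟩ := Nat.exists_eq_add_of_le hab
    have e : ((a + c : ℕ) : ℤ) - a = (c : ℤ) := by push_cast; ring
    rw [e, Int.natCast_dvd_natCast, ← hz.pow_eq_one_iff_dvd, pow_add]
    constructor
    · intro h
      exact mul_left_cancel₀ (pow_ne_zero a h0) (by rw [← h, mul_one])
    · intro h
      rw [h, mul_one]
  rcases le_total a b with h | h
  · exact key a b h
  · rw [eq_comm, key b a h, ← dvd_neg, neg_sub]

/-- Frobenius and the root of unity -/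
theorem frob_class {p : ℕ} [hp : Fact p.Prime] {φ : 𝓞 L →+* AlgebraicClosure (ZMod p)}
    {g : Gal(L/ℚ)} (hφ : HasFrob p φ g) (h3 : p ≠ 2) (j : ℕ) :
    g • D.ζ = D.ζ ^ j ↔ (2 : ℤ) ^ (k + 2) ∣ (p : ℤ) - j := by
  have hpr := D.prim_im h3 φ
  obtain ⟨a, -, ha⟩ := D.exists_pow g
  have hfr := hφ D.ζ
  rw [ha, map_pow, pow_class (by positivity) hpr] at hfr
  rw [ha, pow_class (by positivity) D.hζ]
  push_cast at hfr ⊢
  constructor
  · intro h
    have := dvd_sub hfr h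
    have e : (p : ℤ) - a - (j - a) = p - j := by ring
    rwa [e] at this
  · intro h
    have := dvd_sub hfr h
    have e : (p : ℤ) - a - (p - j) = j - a := by ring
    rwa [e] at this

/-- the pattern of an automorphism -/
noncomputable def pt (g : Gal(L/ℚ)) : P → ZMod 2 := fun q => ng g (D.s (q : GaussianInt) : L)

/-- a number that is `1` modulo four and not modulo eight generates -/
theorem exists_gen {x y : ℤ} (hx : (4 : ℤ) ∣ x - 1) (hy : (4 : ℤ) ∣ y - 1)
    (hy8 : ¬ (8 : ℤ) ∣ y - 1) (r : ℕ) : ∃ n : ℕ, (2 : ℤ) ^ (r + 2) ∣ y ^ n - x := by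
  have hodd : IsCoprime x ((2 : ℤ) ^ (r + 2)) := by
    apply IsCoprime.pow_right
    have h1 : ¬ (2 : ℤ) ∣ x := by omega
    exact (Int.prime_two.coprime_iff_not_dvd.2 h1).symm
  obtain ⟨u, v, huv⟩ := hodd
  have hu : (4 : ℤ) ∣ u - 1 := by
    obtain ⟨c, hc⟩ := hx
    have e : u - 1 = 4 * (-(u * c) - v * 2 ^ r) := by
      have : x = 1 + 4 * c := by linarith
      rw [this, pow_add] at huv
      linarith
    rw [e]
    exact dvd_mul_right _ _
  obtain ⟨n, hn⟩ := exists_pow_one hu hy hy8 r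
  refine ⟨n, ?_⟩
  have e : y ^ n - x = x * (u * y ^ n - 1) + 2 ^ (r + 2) * (v * y ^ n) := by
    linear_combination (-y ^ n) * huv
  rw [e]
  exact dvd_add (hn.mul_left _) (dvd_mul_right _ _)

variable (hk : 1 ≤ k) (hI : Ind P)

include hk hI in
/-- an automorphism with given action on the root of unity and trivial pattern -/
theorem exists_base {j : ℕ} (hj : (4 : ℤ) ∣ (j : ℤ) - 1) : ∃ g : HH D.Z, g.1 • D.ζ = D.ζ ^ j ∧
    (Multiplicative.toAdd (D.Psi hI g)).1 = 0 := by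
  obtain ⟨h, hh⟩ := D.surj hI (Multiplicative.ofAdd (0, 1))
  have h1 : ng h.1 (D.s ii : L) = 1 := congrArg (fun x => (Multiplicative.toAdd x).2) hh
  obtain ⟨y, hy1, hy⟩ := D.exists_pow h.1
  have h2 : ng h.1 (D.s ii : L) ≠ 0 := by rw [h1]; decide
  obtain ⟨n, hn⟩ := exists_gen hj (D.mod_four hk h.2 hy1 hy) (D.not_eight hk h2 hy1 hy) k
  have hpow : ∀ n : ℕ, h.1 ^ n • D.ζ = D.ζ ^ y ^ n := by
    intro n
    induction n with
    | zero => rw [pow_zero, pow_zero, pow_one, one_smul]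
    | succ n ih => rw [pow_succ, mul_smul, hy, smul_pow', ih, ← pow_mul, pow_succ]
  refine ⟨h ^ n, ?_, ?_⟩
  · show h.1 ^ n • D.ζ = _
    rw [hpow, pow_class (by positivity) D.hζ]
    push_cast
    have := (dvd_neg.2 hn)
    rwa [neg_sub] at this
  · rw [map_pow, hh, ← ofAdd_nsmul]
    simp

include hk hI in
/-- the patterns on a coset -/
theorem card_coset {j : ℕ} (hj : (4 : ℤ) ∣ (j : ℤ) - 1) (Q : (P → ZMod 2) → Prop) :
    Nat.card {g : Gal(L/ℚ) // g • D.ζ = D.ζ ^ j ∧ Q (pt D g)} =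
      Nat.card {g : KK D.ζ // Q (Multiplicative.toAdd (D.Th hI g))} := by
  obtain ⟨b, hb, hb0⟩ := exists_base D hk hI hj
  have hpt : ∀ g : HH D.Z, pt D g.1 = (Multiplicative.toAdd (D.Psi hI g)).1 := fun g => rfl
  have hmul : ∀ g : KK D.ζ, pt D (b.1 * g.1) = Multiplicative.toAdd (D.Th hI g) := by
    intro g
    have e1 : D.Psi hI (b * ⟨g.1, D.le g.2⟩) = D.Psi hI b * D.Psi hI ⟨g.1, D.le g.2⟩ := map_mul _ _ _
    have e2 : pt D (b.1 * g.1) = (Multiplicative.toAdd (D.Psi hI (b * ⟨g.1, D.le g.2⟩))).1 := rfl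
    rw [e2, e1, toAdd_mul, Prod.fst_add, hb0, zero_add]
    rfl
  symm
  refine Nat.card_congr
    { toFun := fun x => ⟨b.1 * x.1.1, ?_, ?_⟩
      invFun := fun x => ⟨⟨b.1⁻¹ * x.1, ?_⟩, ?_⟩
      left_inv := fun x => ?_
      right_inv := fun x => ?_ }
  · rw [mul_smul, mem_KK.1 x.1.2, hb]
  · rw [hmul]; exact x.2
  · rw [mem_KK, mul_smul, x.2.1, ← hb, inv_smul_smul]
  · have h1 := x.2.2
    have h2 : b.1⁻¹ * x.1 ∈ KK D.ζ := by rw [mem_KK, mul_smul, x.2.1, ← hb, inv_smul_smul]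
    have h3 := hmul ⟨b.1⁻¹ * x.1, h2⟩
    rw [mul_inv_cancel_left] at h3
    rw [← h3]
    exact h1
  · apply Subtype.ext
    apply Subtype.ext
    show b.1⁻¹ * (b.1 * x.1.1) = x.1.1
    rw [inv_mul_cancel_left]
  · apply Subtype.ext
    show b.1 * (b.1⁻¹ * x.1) = x.1
    rw [mul_inv_cancel_left]

include hk hI in
theorem dens {j : ℕ} (hj : (4 : ℤ) ∣ (j : ℤ) - 1) (Q : (P → ZMod 2) → Prop)
    (T : GaussianInt → Prop)
    (hT : ∀ p : ℕ, p.Prime → p ≠ 2 → ∀ π, PP π → π.norm = p → π ∉ P →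
      (T π ↔ (2 : ℤ) ^ (k + 2) ∣ π.norm - j ∧ Q (fun q : P => qs π q))) :
    Tendsto (fun X : ℕ => (NT T X : ℝ) / (Nat.primeCounting X : ℝ)) atTop
      (𝓝 (2 * (Nat.card (KK D.ζ) : ℝ) / (Nat.card Gal(L/ℚ) : ℝ) *
        ((Nat.card {x : P → ZMod 2 // Q x} : ℝ) / 2 ^ P.card))) := by
  apply NT_tendsto
  have hD0 : 0 < 2 * ∏ q ∈ P, (q.norm).natAbs := by
    have : 0 < ∏ q ∈ P, (q.norm).natAbs := by
      apply Finset.prod_pos
      intro q hq
      have h1 : q.norm ≠ 0 := fun h => hI.n0 q hq (GaussianInt.norm_eq_zero.1 h)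
      omega
    omega
  have h1 := dens_one D.hZ {g : Gal(L/ℚ) | g • D.ζ = D.ζ ^ j ∧ Q (pt D g)} T
    (2 * ∏ q ∈ P, (q.norm).natAbs) hD0 (by
    intro p hp hpD φ g hφ
    have h3 : p ≠ 2 := by
      rintro rfl
      exact hpD (dvd_mul_right _ _)
    have hpP : ∀ q ∈ P, ¬ p ∣ (q.norm).natAbs := by
      intro q hq hd
      exact hpD ((hd.trans (Finset.dvd_prod_of_mem
        (fun q : GaussianInt => (q.norm).natAbs) hq)).mul_left _)
    have hdiv : ∀ π : GaussianInt, π.norm = p → ∀ q ∈ P, ¬ π ∣ q := by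
      rintro π hn q hq ⟨c, rfl⟩
      apply hpP _ hq
      rw [Zsqrtd.norm_mul, hn, Int.natAbs_mul, Int.natAbs_natCast]
      exact dvd_mul_right _ _
    have hfix : g • D.ζ = D.ζ ^ j → p % 4 = 1 := by
      intro hg
      have h4 := (frob_class D hφ h3 j).1 hg
      have h5 : (4 : ℤ) ∣ (p : ℤ) - j := by
        refine dvd_trans ?_ h4
        have : (4 : ℤ) = 2 ^ 2 := by norm_num
        rw [this]
        exact pow_dvd_pow 2 (by omega)
      omega
    have key : ∀ (π : GaussianInt), PP π → π.norm = p → φ (ev D.Z D.hZ π) = 0 →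
        g • D.ζ = D.ζ ^ j → (T π ↔ Q (pt D g)) := by
      intro π h4 h5 h6 hg
      have hnP : π ∉ P := fun h => hdiv π h5 π h (dvd_refl _)
      rw [hT p hp.out h3 π h4 h5 hnP]
      have hgz : g • D.Z = D.Z := (frob_z D.hZ hφ h3).2 (hfix hg)
      have e1 : (fun q : P => qs π q) = pt D g := by
        funext q
        exact frob_sq D.hZ hφ h3 hgz h4.pr h6 (D.hs q q.2) (hdiv π h5 q q.2)
      rw [e1, h5, and_iff_right ((frob_class D hφ h3 j).1 hg)]
    constructor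
    · rintro ⟨hg, hQ⟩
      obtain ⟨π, h4, h5, h6⟩ : ∃ π, PP π ∧ π.norm = p ∧ φ (ev D.Z D.hZ π) = 0 :=
        exists_above D.hZ (hfix hg)
      exact ⟨π, h4, h5, h6, (key π h4 h5 h6 hg).2 hQ⟩
    · rintro ⟨π, h4, h5, h6, h7⟩
      have hnP : π ∉ P := fun h => hdiv π h5 π h (dvd_refl _)
      have hg : g • D.ζ = D.ζ ^ j := by
        rw [frob_class D hφ h3 j, ← h5]
        exact ((hT p hp.out h3 π h4 h5 hnP).1 h7).1
      exact ⟨hg, (key π h4 h5 h6 hg).1 h7⟩)
  have h2 : (Nat.card {g : Gal(L/ℚ) | g • D.ζ = D.ζ ^ j ∧ Q (pt D g)} : ℝ) =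
      (Nat.card {g : KK D.ζ // Q (Multiplicative.toAdd (D.Th hI g))} : ℝ) := by
    congr 1
    exact card_coset D hk hI hj Q
  have h3 := D.ratio hk hI Q
  have hHpos : (0 : ℝ) < Nat.card (KK D.ζ) := by
    have := Nat.card_pos (α := KK D.ζ)
    exact_mod_cast this
  have h4 : (Nat.card {g : KK D.ζ // Q (Multiplicative.toAdd (D.Th hI g))} : ℝ) =
      (Nat.card {x : P → ZMod 2 // Q x} : ℝ) / 2 ^ P.card * (Nat.card (KK D.ζ) : ℝ) := by
    rw [← h3]
    field_simp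
  rw [h2, h4] at h1
  convert h1 using 2
  ring

include D hk hI in
/-- **The proportion among the primary primes with norm `j` modulo `2 ^ (k + 2)`.** -/
theorem prop {j : ℕ} (hj : (4 : ℤ) ∣ (j : ℤ) - 1) (Q : (P → ZMod 2) → Prop)
    (T : GaussianInt → Prop)
    (hT : ∀ p : ℕ, p.Prime → p ≠ 2 → ∀ π, PP π → π.norm = p → π ∉ P →
      (T π ↔ (2 : ℤ) ^ (k + 2) ∣ π.norm - j ∧ Q (fun q : P => qs π q))) :
    Tendsto (fun X : ℕ => (NT T X : ℝ) /
      (NT (fun π => (2 : ℤ) ^ (k + 2) ∣ π.norm - j) X : ℝ)) atTop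
      (𝓝 ((Nat.card {x : P → ZMod 2 // Q x} : ℝ) / 2 ^ P.card)) ∧
    ∀ᶠ X : ℕ in atTop, NT (fun π => (2 : ℤ) ^ (k + 2) ∣ π.norm - j) X ≠ 0 := by
  have h1 := dens D hk hI hj Q T hT
  have h2 := dens D hk hI hj (fun _ => True) (fun π => (2 : ℤ) ^ (k + 2) ∣ π.norm - j)
    (fun p _ _ π _ _ _ => by rw [and_true])
  have h4 : Nat.card {x : P → ZMod 2 // True} = 2 ^ P.card := by
    have : Nat.card (P → ZMod 2) = 2 ^ P.card := by
      rw [Nat.card_fun]
      simp
    rw [← this]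
    exact Nat.card_congr (Equiv.subtypeUnivEquiv fun _ => trivial)
  rw [h4] at h2
  have h5 : (((2 ^ P.card : ℕ) : ℝ) / 2 ^ P.card) = 1 := by
    push_cast
    exact div_self (by positivity)
  rw [h5, mul_one] at h2
  have hK : (0 : ℝ) < Nat.card (KK D.ζ) := by
    have := Nat.card_pos (α := KK D.ζ)
    exact_mod_cast this
  have hG : (0 : ℝ) < Nat.card Gal(L/ℚ) := by
    have := Nat.card_pos (α := Gal(L/ℚ))
    exact_mod_cast this
  have hpos : (0 : ℝ) < 2 * (Nat.card (KK D.ζ) : ℝ) / (Nat.card Gal(L/ℚ) : ℝ) := by positivity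
  refine ⟨?_, ?_⟩
  · have h6 := h1.div h2 hpos.ne'
    have h7 : 2 * (Nat.card (KK D.ζ) : ℝ) / (Nat.card Gal(L/ℚ) : ℝ) *
        ((Nat.card {x : P → ZMod 2 // Q x} : ℝ) / 2 ^ P.card) /
          (2 * (Nat.card (KK D.ζ) : ℝ) / (Nat.card Gal(L/ℚ) : ℝ)) =
        (Nat.card {x : P → ZMod 2 // Q x} : ℝ) / 2 ^ P.card := by
      field_simp
    rw [h7] at h6
    refine h6.congr' ?_
    filter_upwards [eventually_ge_atTop 2] with X hX
    have hpc : (Nat.primeCounting X : ℝ) ≠ 0 := by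
      have : 0 < Nat.primeCounting X := by
        have h := Nat.monotone_primeCounting hX
        have h2 : Nat.primeCounting 2 = 1 := by decide
        omega
      positivity
    simp only [Pi.div_apply]
    rw [div_div_div_cancel_right₀ hpc]
  · filter_upwards [h2.eventually (lt_mem_nhds hpos)] with X hX h0
    rw [h0, Nat.cast_zero, zero_div] at hX
    exact lt_irrefl _ hX

end

/-- the classes of the norm -/
theorem NT_classes (k X : ℕ) : NT (fun _ => True) X =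
    ∑ i ∈ Finset.range (2 ^ k), NT (fun π => (2 : ℤ) ^ (k + 2) ∣ π.norm - ((1 + 4 * i : ℕ) : ℤ)) X := by
  classical
  have hf := fin_nr X
  set F : Finset GaussianInt := hf.toFinset.filter fun π => PP π with hF
  have hmem : ∀ π, π ∈ F ↔ PP π ∧ π.norm ≤ X := by
    intro π
    rw [hF, Finset.mem_filter, Set.Finite.mem_toFinset]
    exact and_comm
  have e : ∀ T : GaussianInt → Prop, NT T X = (F.filter T).card := by
    intro T
    unfold NT
    rw [← Set.ncard_coe_finset]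
    congr 1
    ext π
    rw [Finset.mem_coe, Finset.mem_filter, hmem, and_assoc]
    rfl
  have e1 : (2 : ℕ) ^ (k + 2) = 4 * 2 ^ k := by rw [pow_add]; ring
  have e2 : NT (fun _ => True) X = F.card := by
    rw [e]
    congr 1
    ext π
    simp only [Finset.mem_filter, and_true]
  rw [e2, Finset.card_eq_sum_card_fiberwise (f := fun π => (π.norm).natAbs % 2 ^ (k + 2) / 4)
      (t := Finset.range (2 ^ k))]
  · refine Finset.sum_congr rfl fun i hi => ?_
    rw [e]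
    congr 1
    ext π
    simp only [Finset.mem_filter]
    refine and_congr_right fun hπ => ?_
    have h1 := ((hmem π).1 hπ).1.norm_mod
    have h2 := norm_nn π
    obtain ⟨N, hN⟩ : ∃ N : ℕ, π.norm = N := ⟨(π.norm).natAbs, by omega⟩
    have h3 : N % 4 = 1 := by omega
    rw [hN, Int.natAbs_natCast]
    have h4 : (2 : ℤ) ^ (k + 2) = ((2 ^ (k + 2) : ℕ) : ℤ) := by push_cast; rfl
    rw [h4, ← Nat.modEq_iff_dvd, Nat.ModEq.comm]
    rw [Finset.mem_range] at hi
    unfold Nat.ModEq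
    rw [Nat.mod_eq_of_lt (a := 1 + 4 * i) (by rw [e1]; omega)]
    have h5 : N % 2 ^ (k + 2) % 4 = 1 := by
      rw [e1, Nat.mod_mul_right_mod]
      exact h3
    omega
  · intro π _
    rw [Finset.mem_coe, Finset.mem_range, Nat.div_lt_iff_lt_mul (by norm_num), mul_comm, ← e1]
    exact Nat.mod_lt _ (by positivity)

section
variable {L : Type} [Field L] [NumberField L] [IsGalois ℚ L] {P : Finset GaussianInt} {k : ℕ}
  (D : DatC L P k) (hk : 1 ≤ k) (hI : Ind P)

include D hk hI in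
/-- the classes of the norm have the same density -/
theorem share {j : ℕ} (hj : (4 : ℤ) ∣ (j : ℤ) - 1) :
    Tendsto (fun X : ℕ => (NT (fun π => (2 : ℤ) ^ (k + 2) ∣ π.norm - j) X : ℝ) /
      (NT (fun _ => True) X : ℝ)) atTop (𝓝 (1 / 2 ^ k)) := by
  have h4 : Nat.card {x : P → ZMod 2 // True} = 2 ^ P.card := by
    have : Nat.card (P → ZMod 2) = 2 ^ P.card := by
      rw [Nat.card_fun]
      simp
    rw [← this]
    exact Nat.card_congr (Equiv.subtypeUnivEquiv fun _ => trivial)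
  have h5 : (((2 ^ P.card : ℕ) : ℝ) / 2 ^ P.card) = 1 := by
    push_cast
    exact div_self (by positivity)
  have h2 : ∀ j : ℕ, (4 : ℤ) ∣ (j : ℤ) - 1 →
      Tendsto (fun X : ℕ => (NT (fun π => (2 : ℤ) ^ (k + 2) ∣ π.norm - j) X : ℝ) /
        (Nat.primeCounting X : ℝ)) atTop
        (𝓝 (2 * (Nat.card (KK D.ζ) : ℝ) / (Nat.card Gal(L/ℚ) : ℝ))) := by
    intro j hj
    have h := dens D hk hI hj (fun _ => True) (fun π => (2 : ℤ) ^ (k + 2) ∣ π.norm - j)
      (fun p _ _ π _ _ _ => by rw [and_true])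
    rwa [h4, h5, mul_one] at h
  have hK : (0 : ℝ) < Nat.card (KK D.ζ) := by
    have := Nat.card_pos (α := KK D.ζ)
    exact_mod_cast this
  have hG : (0 : ℝ) < Nat.card Gal(L/ℚ) := by
    have := Nat.card_pos (α := Gal(L/ℚ))
    exact_mod_cast this
  set c : ℝ := 2 * (Nat.card (KK D.ζ) : ℝ) / (Nat.card Gal(L/ℚ) : ℝ) with hc
  have hpos : 0 < c := by positivity
  have h6 : Tendsto (fun X : ℕ => (NT (fun _ => True) X : ℝ) / (Nat.primeCounting X : ℝ)) atTop
      (𝓝 (∑ _i ∈ Finset.range (2 ^ k), c)) := by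
    have h7 := tendsto_finsetSum (Finset.range (2 ^ k)) fun i _ =>
      h2 (1 + 4 * i) ⟨(i : ℤ), by push_cast; ring⟩
    refine h7.congr fun X => ?_
    rw [NT_classes k X, Nat.cast_sum, Finset.sum_div]
  rw [Finset.sum_const, Finset.card_range, nsmul_eq_mul] at h6
  push_cast at h6
  have h8 := (h2 j hj).div h6 (by positivity)
  have h9 : c / (2 ^ k * c) = 1 / 2 ^ k := by
    field_simp
  rw [h9] at h8
  refine h8.congr' ?_
  filter_upwards [eventually_ge_atTop 2] with X hX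
  have hpc : (Nat.primeCounting X : ℝ) ≠ 0 := by
    have : 0 < Nat.primeCounting X := by
      have h := Nat.monotone_primeCounting hX
      have h2 : Nat.primeCounting 2 = 1 := by decide
      omega
    positivity
  simp only [Pi.div_apply]
  rw [div_div_div_cancel_right₀ hpc]

end

end Pool.Agent.U695.QL
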