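import Mathlib

/-!
# Definitions for the laws of the prime twists over the Gaussian field
-/

set_option autoImplicit false

namespace Pool.Agent.U695.QL.St

open scoped Classical

/-- The primary Gaussian primes: the primes that are `1` modulo `2 + 2i`. Every Gaussian prime other than
`1 + i` and its associates has exactly one primary associate. -/
def PrimaryPrime (π : GaussianInt) : Prop := Prime π ∧ (⟨2, 2⟩ : GaussianInt) ∣ π - 1

/-- `0` if `x` is a square modulo `π`, and `1` if it is not. -/
noncomputable def sy (π x : GaussianInt) : ZMod 2 := if ∃ y, π ∣ x - y ^ 2 then 0 else 1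

/-- The Laplacian over the field with two elements of the graph of the pairs of primes that are not
squares modulo each other. -/
noncomputable def lap {m : ℕ} (π : Fin m → GaussianInt) : Matrix (Fin m) (Fin m) (ZMod 2) :=
  Matrix.of fun i j =>
    if i = j then ∑ l ∈ Finset.univ.erase i, sy (π i) (π l) else sy (π i) (π j)

/-- `Good π ρ`: the prime `ρ` is different from the `π j`, and the Laplacian becomes nonsingular when
the symbols of the `π j` modulo `ρ` are added to the diagonal. -/
def Good {m : ℕ} (π : Fin m → GaussianInt) (ρ : GaussianInt) : Prop :=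
  (∀ j, ρ ≠ π j) ∧ (lap π + Matrix.diagonal fun j => sy ρ (π j)).det ≠ 0

/-- The number of the Gaussian integers `ρ` of norm at most `X` with the property `T`. -/
noncomputable def count (T : GaussianInt → Prop) (X : ℕ) : ℕ :=
  {ρ : GaussianInt | T ρ ∧ ρ.norm ≤ X}.ncard

/-- The new primes: the primary primes with norm `a` modulo `q`. -/
def New (q a : ℤ) (ρ : GaussianInt) : Prop := PrimaryPrime ρ ∧ q ∣ ρ.norm - a

/-- The proportion of the vectors `u` such that the Laplacian plus `diag u` is nonsingular. -/
noncomputable def cn {m : ℕ} (π : Fin m → GaussianInt) : ℝ :=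
  (Nat.card {u : Fin m → ZMod 2 // (lap π + Matrix.diagonal u).det ≠ 0} : ℝ) / 2 ^ m

end Pool.Agent.U695.QL.St
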