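import Pool.Agent.Y699.Pd
import Pool.Agent.U695.QL.St

/-!
# The criterion for one new prime
-/

set_option autoImplicit false

namespace Pool.Agent.U695.QL

open Pool.Agent.U695.QL.St
open Pool.Agent.Y699 (PP PS PD mem_PD PS_prod qr qr_mul qr_one qr_rec qr_zero_iff)
open Pool.Agent.H304R2.EC.A1 (prim prim_mul prim_one prim_ne_zero)
open scoped Classical

theorem pp_iff {π : GaussianInt} : PrimaryPrime π ↔ PP π := by
  constructor
  · rintro ⟨h1, h2⟩
    exact ⟨h1, (Pool.Agent.W164.RC.prim_iff_dvd π).2 h2⟩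
  · intro h
    exact ⟨h.pr, (Pool.Agent.W164.RC.prim_iff_dvd π).1 h.prm⟩

/-- the sign of an element of the field with two elements -/
def si (a : ZMod 2) : ℤ := if a = 0 then 1 else -1

theorem si_add : ∀ a b : ZMod 2, si (a + b) = si a * si b := by decide

theorem si_one : ∀ a : ZMod 2, si a = 1 → a = 0 := by decide

theorem si_inj : ∀ a b : ZMod 2, si a = si b → a = b := by decide

theorem qr_si {π x : GaussianInt} (h : ¬ π ∣ x) : qr π x = si (sy π x) := by
  unfold qr sy si
  rw [if_neg h]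
  split_ifs <;> simp_all

theorem qr_prodf {π : GaussianInt} (h : PP π) {κ : Type*} (S : Finset κ) (f : κ → GaussianInt)
    (hf : ∀ i ∈ S, ¬ π ∣ f i) : qr π (∏ i ∈ S, f i) = si (∑ i ∈ S, sy π (f i)) := by
  induction S using Finset.induction_on with
  | empty => rw [Finset.prod_empty, Finset.sum_empty, qr_one h]; rfl
  | insert a S ha ih =>
    rw [Finset.prod_insert ha, Finset.sum_insert ha, qr_mul h, si_add,
      ih fun i hi => hf i (Finset.mem_insert_of_mem hi), qr_si (hf a (Finset.mem_insert_self _ _))]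

theorem sy_rec {π ρ : GaussianInt} (h1 : PP π) (h2 : PP ρ) (h : π ≠ ρ) : sy π ρ = sy ρ π := by
  have e1 : ¬ π ∣ ρ := fun h' => h (h1.eq_of_dvd h2 h')
  have e2 : ¬ ρ ∣ π := fun h' => h (h2.eq_of_dvd h1 h').symm
  apply si_inj
  rw [← qr_si e1, ← qr_si e2, qr_rec h1 h2]

theorem lap_mulVec {m : ℕ} (π : Fin m → GaussianInt) (v : Fin m → ZMod 2) (j : Fin m) :
    ((lap π).mulVec v) j = ∑ i, sy (π j) (π i) * (v i + v j) := by
  unfold lap Matrix.mulVec dotProduct
  simp only [Matrix.of_apply]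
  rw [← Finset.add_sum_erase _ _ (Finset.mem_univ j), ← Finset.add_sum_erase _ _ (Finset.mem_univ j)]
  rw [if_pos rfl]
  have h2 : (v j + v j : ZMod 2) = 0 := CharTwo.add_self_eq_zero _
  rw [h2, mul_zero, zero_add, Finset.sum_mul, ← Finset.sum_add_distrib]
  refine Finset.sum_congr rfl fun i hi => ?_
  rw [if_neg (Finset.ne_of_mem_erase hi).symm]
  ring

section
variable {m : ℕ} {π : Fin m → GaussianInt} {ρ : GaussianInt} (hπ : ∀ j, PP (π j))
  (hinj : Function.Injective π) (hρ : PP ρ) (hne : ∀ j, ρ ≠ π j)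

include hπ hinj hρ hne in
theorem ps_prod : PS ((∏ j, π j) * ρ) ∧ PD ((∏ j, π j) * ρ) = insert ρ (Finset.univ.image π) := by
  have hn : ρ ∉ Finset.univ.image π := by
    rw [Finset.mem_image]
    rintro ⟨j, -, hj⟩
    exact hne j hj.symm
  have e : (∏ j, π j) * ρ = ∏ q ∈ insert ρ (Finset.univ.image π), q := by
    rw [Finset.prod_insert hn, Finset.prod_image (fun a _ b _ h => hinj h), mul_comm]
  rw [e]
  apply PS_prod
  intro q hq
  rcases Finset.mem_insert.1 hq with rfl | h
  · exact hρ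
  · obtain ⟨j, -, rfl⟩ := Finset.mem_image.1 h
    exact hπ j

include hπ hinj hρ hne in
theorem ker_aux (hdet : (lap π + Matrix.diagonal fun j => sy ρ (π j)).det ≠ 0)
    {d d' : GaussianInt} (hd : prim d) (hdd : (∏ j, π j) * ρ = d * d')
    (h1 : ∀ q ∈ PD d, qr q d' = 1) (h2 : ∀ q ∈ PD d', qr q d = 1) (hρd : ρ ∣ d') : d = 1 := by
  obtain ⟨hP, hPD⟩ := ps_prod hπ hinj hρ hne
  have hd0 : d ≠ 0 := prim_ne_zero hd
  have hD0 := hP.ne
  have hd'0 : d' ≠ 0 := by
    rintro rfl
    rw [mul_zero] at hdd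
    exact hD0 hdd
  have pd : PS d := hP.of_dvd hd ⟨d', hdd⟩
  have hρn : ¬ ρ ∣ d := by
    intro h
    have h3 : ρ * ρ ∣ (∏ j, π j) * ρ := by rw [hdd]; exact mul_dvd_mul h hρd
    exact hρ.pr.not_isUnit (hP.sqf ρ h3)
  set S : Finset (Fin m) := Finset.univ.filter fun j => π j ∣ d with hS
  have hmS : ∀ j, j ∈ S ↔ π j ∣ d := fun j => by rw [hS, Finset.mem_filter]; simp
  have hPd : PD d = S.image π := by
    ext q
    rw [mem_PD hd0, Finset.mem_image]
    constructor
    · rintro ⟨h3, h4⟩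
      have h5 : q ∈ PD ((∏ j, π j) * ρ) := (mem_PD hD0).2 ⟨h3, h4.trans ⟨d', hdd⟩⟩
      rw [hPD, Finset.mem_insert, Finset.mem_image] at h5
      rcases h5 with rfl | ⟨j, -, rfl⟩
      · exact absurd h4 hρn
      · exact ⟨j, (hmS j).2 h4, rfl⟩
    · rintro ⟨j, hj, rfl⟩
      exact ⟨hπ j, (hmS j).1 hj⟩
  have hdS : d = ∏ j ∈ S, π j := by
    rw [← pd.prod, hPd, Finset.prod_image (fun a _ b _ h => hinj h)]
  have hd'S : d' = (∏ j ∈ Finset.univ \ S, π j) * ρ := by
    have h3 : d * d' = d * ((∏ j ∈ Finset.univ \ S, π j) * ρ) := by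
      rw [← hdd, ← Finset.prod_sdiff (Finset.subset_univ S)]
      conv_rhs => rw [hdS]
      ring
    exact mul_left_cancel₀ hd0 h3
  set e : Fin m → ZMod 2 := fun j => if π j ∣ d then 1 else 0 with he
  have heS : ∀ j, e j = if j ∈ S then 1 else 0 := fun j => by
    rw [he]
    simp only [hmS]
  have hzero : e = 0 := by
    apply Matrix.eq_zero_of_mulVec_eq_zero hdet
    funext j
    rw [Matrix.add_mulVec, Pi.add_apply, lap_mulVec, Matrix.mulVec_diagonal, Pi.zero_apply]
    by_cases hj : j ∈ S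
    · have h3 : π j ∈ PD d := by rw [hPd]; exact Finset.mem_image_of_mem _ hj
      have h4 := h1 (π j) h3
      have hnr : ¬ π j ∣ ρ := fun h => hne j ((hπ j).eq_of_dvd hρ h).symm
      rw [hd'S, qr_mul (hπ j), qr_si hnr, qr_prodf (hπ j), ← si_add] at h4
      · have h5 := si_one _ h4
        rw [heS j, if_pos hj, mul_one, sy_rec hρ (hπ j) (hne j)]
        have h6 : ∑ i, sy (π j) (π i) * (e i + 1) = ∑ i ∈ Finset.univ \ S, sy (π j) (π i) := by
          rw [← Finset.sum_sdiff (Finset.subset_univ S)]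
          have h7 : ∑ i ∈ S, sy (π j) (π i) * (e i + 1) = 0 := by
            refine Finset.sum_eq_zero fun i hi => ?_
            rw [heS, if_pos hi]
            have : (1 : ZMod 2) + 1 = 0 := by decide
            rw [this, mul_zero]
          rw [h7, add_zero]
          refine Finset.sum_congr rfl fun i hi => ?_
          rw [heS, if_neg (Finset.mem_sdiff.1 hi).2, zero_add, mul_one]
        rw [h6]
        exact h5
      · intro i hi h
        have hij : π j = π i := (hπ j).eq_of_dvd (hπ i) h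
        rw [hinj hij] at hj
        exact (Finset.mem_sdiff.1 hi).2 hj
    · have h3 : π j ∣ d * d' := by
        rw [← hdd]
        exact (Finset.dvd_prod_of_mem π (Finset.mem_univ j)).mul_right _
      have h4 : π j ∣ d' := ((hπ j).pr.dvd_or_dvd h3).resolve_left fun h => hj ((hmS j).2 h)
      have h5 := h2 (π j) ((mem_PD hd'0).2 ⟨hπ j, h4⟩)
      rw [hdS, qr_prodf (hπ j)] at h5
      · have h6 := si_one _ h5
        rw [heS j, if_neg hj, mul_zero, add_zero]
        have h8 : ∑ i, sy (π j) (π i) * (e i + 0) = ∑ i ∈ S, sy (π j) (π i) := by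
          rw [← Finset.sum_sdiff (Finset.subset_univ S)]
          have h7 : ∑ i ∈ Finset.univ \ S, sy (π j) (π i) * (e i + 0) = 0 := by
            refine Finset.sum_eq_zero fun i hi => ?_
            rw [heS, if_neg (Finset.mem_sdiff.1 hi).2, add_zero, mul_zero]
          rw [h7, zero_add]
          refine Finset.sum_congr rfl fun i hi => ?_
          rw [heS, if_pos hi, add_zero, mul_one]
        rw [h8]
        exact h6
      · intro i hi h
        have hij : π j = π i := (hπ j).eq_of_dvd (hπ i) h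
        rw [← hinj hij] at hi
        exact hj hi
  rw [hdS]
  apply Finset.prod_eq_one
  intro j hj
  exfalso
  have := congrFun hzero j
  rw [heS, if_pos hj, Pi.zero_apply] at this
  exact one_ne_zero this

include hπ hinj hρ hne in
/-- **The criterion.** -/
theorem ker_of_det (hdet : (lap π + Matrix.diagonal fun j => sy ρ (π j)).det ≠ 0) :
    ∀ d d' : GaussianInt, prim d → prim d' → (∏ j, π j) * ρ = d * d' →
      (∀ q ∈ PD d, qr q d' = 1) → (∀ q ∈ PD d', qr q d = 1) → d = 1 ∨ d' = 1 := by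
  intro d d' hd hd' hdd h1 h2
  have h3 : ρ ∣ d * d' := by rw [← hdd]; exact dvd_mul_left _ _
  rcases hρ.pr.dvd_or_dvd h3 with h | h
  · right
    exact ker_aux hπ hinj hρ hne hdet hd' (by rw [hdd, mul_comm]) h2 h1 h
  · left
    exact ker_aux hπ hinj hρ hne hdet hd hdd h1 h2 h

end

end Pool.Agent.U695.QL
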