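import Pool.Agent.U695.QL.Cnt
import Pool.Agent.U695.QL.Crit
import Pool.Agent.U695.JT.Prob
import Pool.Agent.Q283.TW.Bord

/-!
# The joint law of the prime twists over the Gaussian field, with the norm in any class
-/

set_option autoImplicit false
set_option linter.style.haveILetI false

namespace Pool.Agent.U695.QL

open Filter Topology Finset
open Pool.Agent.U695.QL.St
open Pool.Agent.Y715.Qr (qs)
open Q283.GA (Ind indep exists_dat)
open Pool.Agent.U695.JT (wt Pat lln many)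
open Pool.Agent.Y699 (PP)
open scoped Classical

section bij
variable {σ : Type} [Fintype σ] {f : σ → GaussianInt} {P : Finset GaussianInt}

/-- the values at the points `f s` -/
def vals (hm : ∀ s, f s ∈ P) (x : P → ZMod 2) : σ → ZMod 2 := fun s => x ⟨f s, hm s⟩

theorem card_P (hinj : Function.Injective f) (hP : P = univ.image f) : P.card = Fintype.card σ := by
  rw [hP, Finset.card_image_of_injective _ hinj, Finset.card_univ]

theorem vals_bij (hinj : Function.Injective f) (hP : P = univ.image f) (hm : ∀ s, f s ∈ P) :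
    Function.Bijective (vals hm) := by
  rw [Fintype.bijective_iff_injective_and_card]
  constructor
  · intro x y h
    funext q
    obtain ⟨q, hq⟩ := q
    have hq' := hq
    rw [hP, Finset.mem_image] at hq'
    obtain ⟨s, -, rfl⟩ := hq'
    exact congrFun h s
  · rw [Fintype.card_fun, Fintype.card_fun, Fintype.card_coe, card_P hinj hP, ZMod.card]

end bij

section count
variable {n : ℕ} {m : Fin n → ℕ} {π : ∀ i : Fin n, Fin (m i) → GaussianInt}
  {P : Finset GaussianInt}

/-- all the primes -/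
def flat (π : ∀ i : Fin n, Fin (m i) → GaussianInt) (x : Σ i, Fin (m i)) : GaussianInt := π x.1 x.2

theorem card_count (hinj : Function.Injective (flat π)) (hP : P = univ.image (flat π))
    (hm : ∀ i j, π i j ∈ P) (E : ∀ i, (Fin (m i) → ZMod 2) → Prop) :
    Nat.card {x : P → ZMod 2 // ∀ i, E i (fun j => x ⟨π i j, hm i j⟩)} =
      ∏ i, Nat.card {u : Fin (m i) → ZMod 2 // E i u} := by
  have hm' : ∀ s, flat π s ∈ P := fun s => hm s.1 s.2
  have h1 : Nat.card {x : P → ZMod 2 // ∀ i, E i (fun j => x ⟨π i j, hm i j⟩)} =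
      Nat.card {y : (Σ i, Fin (m i)) → ZMod 2 // ∀ i, E i (fun j => y ⟨i, j⟩)} :=
    Nat.card_congr ((Equiv.ofBijective _ (vals_bij hinj hP hm')).subtypeEquiv
      fun x => Iff.rfl)
  have h2 : Nat.card {y : (Σ i, Fin (m i)) → ZMod 2 // ∀ i, E i (fun j => y ⟨i, j⟩)} =
      Nat.card {g : (∀ i, Fin (m i) → ZMod 2) // ∀ i, E i (g i)} := by
    refine Nat.card_congr
      { toFun := fun y => ⟨fun i j => y.1 ⟨i, j⟩, y.2⟩
        invFun := fun p => ⟨fun s => p.1 s.1 s.2, p.2⟩
        left_inv := fun y => rfl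
        right_inv := fun p => rfl }
  rw [h1, h2, ← Nat.card_pi]
  exact Nat.card_congr (Equiv.subtypePiEquivPi (p := E))

end count

theorem card_ev {m : ℕ} (π : Fin m → GaussianInt) (b : Prop) [Decidable b] :
    (Nat.card {u : Fin m → ZMod 2 // b ↔ (lap π + Matrix.diagonal u).det ≠ 0} : ℝ) / 2 ^ m =
      if b then cn π else 1 - cn π := by
  have h3 : Nat.card (Fin m → ZMod 2) = 2 ^ m := by
    rw [Nat.card_fun]
    simp
  have e : (2 : ℝ) ^ m ≠ 0 := by positivity
  by_cases hb : b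
  · rw [if_pos hb, cn]
    have h1 : Nat.card {u : Fin m → ZMod 2 // b ↔ (lap π + Matrix.diagonal u).det ≠ 0} =
        Nat.card {u : Fin m → ZMod 2 // (lap π + Matrix.diagonal u).det ≠ 0} :=
      Nat.card_congr (Equiv.subtypeEquivRight fun y => ⟨fun h => h.1 hb, fun h => ⟨fun _ => h, fun _ => hb⟩⟩)
    rw [h1]
  · rw [if_neg hb]
    have e1 : Nat.card {u : Fin m → ZMod 2 // b ↔ (lap π + Matrix.diagonal u).det ≠ 0} =
        Nat.card {u : Fin m → ZMod 2 // ¬ (lap π + Matrix.diagonal u).det ≠ 0} :=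
      Nat.card_congr (Equiv.subtypeEquivRight fun y =>
        ⟨fun h h2 => hb (h.2 h2), fun h => ⟨fun h2 => absurd h2 hb, fun h2 => absurd h2 h⟩⟩)
    have h1 : Nat.card {u : Fin m → ZMod 2 // b ↔ (lap π + Matrix.diagonal u).det ≠ 0} +
        Nat.card {u : Fin m → ZMod 2 // (lap π + Matrix.diagonal u).det ≠ 0} = 2 ^ m := by
      rw [← h3, e1, add_comm, ← Nat.card_sum]
      exact Nat.card_congr (Equiv.sumCompl _)
    have h2 : (Nat.card {u : Fin m → ZMod 2 // b ↔ (lap π + Matrix.diagonal u).det ≠ 0} : ℝ) =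
        2 ^ m - Nat.card {u : Fin m → ZMod 2 // (lap π + Matrix.diagonal u).det ≠ 0} := by
      rw [eq_sub_iff_add_eq]
      exact_mod_cast h1
    rw [h2, sub_div, div_self e, cn]

theorem sy_eq (π x : GaussianInt) : sy π x = qs π x := rfl

section law
variable {k n j : ℕ} {m : Fin n → ℕ} {π : ∀ i : Fin n, Fin (m i) → GaussianInt}

theorem NT_count (T : GaussianInt → Prop) (X : ℕ) :
    NT T X = count (fun ρ => PrimaryPrime ρ ∧ T ρ) X := by
  unfold NT count
  congr 1
  ext ρ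
  constructor
  · rintro ⟨h1, h2, h3⟩
    exact ⟨⟨pp_iff.2 h1, h3⟩, h2⟩
  · rintro ⟨⟨h1, h3⟩, h2⟩
    exact ⟨pp_iff.1 h1, h2, h3⟩

/-- **The joint law**; the new primes exist. -/
theorem law (hk : 1 ≤ k) (hj : (4 : ℤ) ∣ (j : ℤ) - 1) (hπ : ∀ i l, PrimaryPrime (π i l))
    (hinj : Function.Injective (flat π)) (A : Finset (Fin n)) :
    Tendsto (fun X : ℕ => (count (fun ρ => New (2 ^ (k + 2)) j ρ ∧ ∀ i, (i ∈ A ↔ Good (π i) ρ)) X : ℝ) /
      (count (New (2 ^ (k + 2)) j) X : ℝ)) atTop (𝓝 (wt (fun i => cn (π i)) A)) ∧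
    ∀ᶠ X : ℕ in atTop, count (New (2 ^ (k + 2)) j) X ≠ 0 := by
  set P : Finset GaussianInt := univ.image (flat π) with hPd
  have hπ' : ∀ s, PP (flat π s) := fun s => pp_iff.1 (hπ s.1 s.2)
  have hI : Ind P := by
    apply indep
    · intro q hq
      obtain ⟨l, -, rfl⟩ := Finset.mem_image.1 hq
      exact (hπ' l).pr
    · intro q hq r hr hd
      obtain ⟨l, -, rfl⟩ := Finset.mem_image.1 hq
      obtain ⟨l', -, rfl⟩ := Finset.mem_image.1 hr
      exact (hπ' l).eq_of_dvd (hπ' l') hd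
  have hm' : ∀ s, flat π s ∈ P := fun s => Finset.mem_image_of_mem _ (mem_univ s)
  have hm : ∀ i l, π i l ∈ P := fun i l => hm' ⟨i, l⟩
  obtain ⟨L, hL, hN, hG, ⟨D⟩⟩ := exists_dat P hI.w0 (k := k) hk
  set EV : (∀ i, (Fin (m i) → ZMod 2) → Prop) := fun i u =>
    (i ∈ A ↔ (lap (π i) + Matrix.diagonal u).det ≠ 0) with hEV
  obtain ⟨d1, d2⟩ := prop D hk hI hj (fun x => ∀ i, EV i (fun l => x ⟨π i l, hm i l⟩))
    (fun ρ => (2 : ℤ) ^ (k + 2) ∣ ρ.norm - j ∧ ∀ i, (i ∈ A ↔ Good (π i) ρ)) (by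
      intro p hp hp3 ρ hρ hn hnP
      refine and_congr_right fun h1 => forall_congr' fun i => ?_
      refine iff_congr Iff.rfl ?_
      constructor
      · rintro ⟨-, h2⟩
        exact h2
      · intro h2
        exact ⟨fun l hl => hnP (by rw [hl]; exact hm i l), h2⟩)
  rw [card_count hinj hPd hm EV] at d1
  have hPc : P.card = ∑ i, m i := by
    rw [card_P hinj hPd, Fintype.card_sigma]
    simp
  have hprod : (∏ i, (2 : ℝ) ^ m i) = 2 ^ (∑ i, m i) := by
    rw [Finset.prod_pow_eq_pow_sum]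
  have h7 : ((∏ i, Nat.card {u : Fin (m i) → ZMod 2 // EV i u} : ℕ) : ℝ) / 2 ^ P.card =
      wt (fun i => cn (π i)) A := by
    have h8 : wt (fun i => cn (π i)) A =
        ∏ i, (Nat.card {u : Fin (m i) → ZMod 2 // EV i u} : ℝ) / 2 ^ m i := by
      unfold wt
      exact Finset.prod_congr rfl fun i _ => (card_ev (π i) (i ∈ A)).symm
    rw [h8, Finset.prod_div_distrib, hprod, hPc]
    push_cast
    rfl
  rw [h7] at d1
  have e1 : ∀ X : ℕ, NT (fun ρ => (2 : ℤ) ^ (k + 2) ∣ ρ.norm - j ∧ ∀ i, (i ∈ A ↔ Good (π i) ρ)) X =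
      count (fun ρ => New (2 ^ (k + 2)) j ρ ∧ ∀ i, (i ∈ A ↔ Good (π i) ρ)) X := by
    intro X
    rw [NT_count]
    congr 1
    funext ρ
    unfold New
    rw [and_assoc]
  have e0 : ∀ X : ℕ, NT (fun ρ => (2 : ℤ) ^ (k + 2) ∣ ρ.norm - j) X =
      count (New (2 ^ (k + 2)) j) X := by
    intro X
    rw [NT_count]
    rfl
  simp only [e1, e0] at d1
  simp only [e0] at d2
  exact ⟨d1, d2⟩

end law

/-! ### Sequences -/

theorem norm_fin (T : GaussianInt → Prop) (X : ℕ) : {ρ : GaussianInt | T ρ ∧ ρ.norm ≤ X}.Finite :=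
  (Q283.GA.fin_nr X).subset fun _ h => h.2

/-- the new primes of norm at most `X` -/
noncomputable def SN (q a : ℤ) (X : ℕ) : Finset GaussianInt := (norm_fin (New q a) X).toFinset

theorem card_filter_SN (q a : ℤ) (X : ℕ) (P : GaussianInt → Prop) (i : DecidablePred P) :
    (@Finset.filter _ P i (SN q a X)).card = count (fun ρ => New q a ρ ∧ P ρ) X := by
  unfold count
  rw [← Set.ncard_coe_finset]
  congr 1
  ext ρ
  rw [Finset.mem_coe, Finset.mem_filter, SN, Set.Finite.mem_toFinset, Set.mem_ofPred_eq,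
    Set.mem_ofPred_eq]
  tauto

theorem card_SN (q a : ℤ) (X : ℕ) : (SN q a X).card = count (New q a) X := by
  unfold count
  rw [← Set.ncard_coe_finset]
  congr 1
  ext ρ
  rw [Finset.mem_coe, SN, Set.Finite.mem_toFinset]

section seq
variable {k j : ℕ} {m : ℕ → ℕ} {π : ∀ i : ℕ, Fin (m i) → GaussianInt}

theorem pat (hk : 1 ≤ k) (hj : (4 : ℤ) ∣ (j : ℤ) - 1) (hπ : ∀ i l, PrimaryPrime (π i l))
    (hinj : ∀ i l i' l', π i l = π i' l' → i = i' ∧ HEq l l') :
    Pat (SN (2 ^ (k + 2)) j) (fun i ρ => Good (π i) ρ) fun i => cn (π i) := by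
  intro n A
  have hinj' : Function.Injective (flat (n := n) (m := fun i => m i) fun i => π i) := by
    rintro ⟨i, l⟩ ⟨i', l'⟩ h
    obtain ⟨h1, h2⟩ := hinj i l i' l' h
    have h3 : i = i' := Fin.ext h1
    subst h3
    rw [eq_of_heq h2]
  have h := (law (n := n) (m := fun i => m i) (π := fun i => π i) hk hj (fun i l => hπ i l)
    hinj' A).1
  refine h.congr fun X => ?_
  rw [card_filter_SN, card_SN]

theorem ne_SN (hk : 1 ≤ k) (hj : (4 : ℤ) ∣ (j : ℤ) - 1) :
    ∀ᶠ X in atTop, (SN (2 ^ (k + 2)) j X).Nonempty := by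
  have h := (law (k := k) (j := j) (n := 0) (m := fun _ => 0) (π := fun i => i.elim0) hk hj
    (fun i => i.elim0) (fun x => x.1.elim0) ∅).2
  filter_upwards [h] with X hX
  rw [← Finset.card_pos, card_SN]
  omega

end seq

theorem cn_mem {m : ℕ} (π : Fin m → GaussianInt) : 0 ≤ cn π ∧ cn π ≤ 1 := by
  unfold cn
  refine ⟨by positivity, ?_⟩
  rw [div_le_one (by positivity)]
  have h3 : Nat.card (Fin m → ZMod 2) = 2 ^ m := by
    rw [Nat.card_fun]
    simp
  have h4 : Nat.card {u : Fin m → ZMod 2 // (lap π + Matrix.diagonal u).det ≠ 0} ≤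
      Nat.card (Fin m → ZMod 2) := Nat.card_le_card_of_injective _ Subtype.val_injective
  rw [h3] at h4
  exact_mod_cast h4

theorem cn_lower {m : ℕ} (π : Fin m → GaussianInt) : (1 / 2 : ℝ) ^ m ≤ cn π := by
  unfold cn
  obtain ⟨v, hv⟩ := Q283.TW.exists_diag (lap π)
  have hne : Nonempty {u : Fin m → ZMod 2 // (lap π + Matrix.diagonal u).det ≠ 0} := ⟨⟨v, hv⟩⟩
  have h1 : 0 < Nat.card {u : Fin m → ZMod 2 // (lap π + Matrix.diagonal u).det ≠ 0} :=
    Nat.card_pos
  rw [one_div, inv_pow, ← one_div]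
  apply div_le_div_of_nonneg_right _ (by positivity)
  exact_mod_cast h1

/-- the new primes for the modulus `16` are one quarter of all primary primes -/
theorem quarter {a : ℕ} (ha : (4 : ℤ) ∣ (a : ℤ) - 1) :
    Tendsto (fun X : ℕ => (count (New 16 a) X : ℝ) / (count PrimaryPrime X : ℝ)) atTop
      (𝓝 (1 / 4)) := by
  have hI : Ind (∅ : Finset GaussianInt) := by
    apply indep <;> simp
  obtain ⟨L, hL, hN, hG, ⟨D⟩⟩ := exists_dat (∅ : Finset GaussianInt) hI.w0 (k := 2) (by norm_num)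
  have h := share D (by norm_num) hI ha
  have e0 : ∀ X : ℕ, NT (fun π => (2 : ℤ) ^ (2 + 2) ∣ π.norm - a) X = count (New 16 a) X := by
    intro X
    rw [NT_count]
    unfold New
    norm_num
  have e1 : ∀ X : ℕ, NT (fun _ => True) X = count PrimaryPrime X := by
    intro X
    rw [NT_count]
    simp only [and_true]
  have e2 : (1 : ℝ) / 2 ^ 2 = 1 / 4 := by norm_num
  rw [e2] at h
  refine h.congr fun X => ?_
  rw [e0, e1]

/-- the new primes for the modulus `8` are one half of all primary primes -/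
theorem half {a : ℕ} (ha : (4 : ℤ) ∣ (a : ℤ) - 1) :
    Tendsto (fun X : ℕ => (count (New 8 a) X : ℝ) / (count PrimaryPrime X : ℝ)) atTop
      (𝓝 (1 / 2)) := by
  have hI : Ind (∅ : Finset GaussianInt) := by
    apply indep <;> simp
  obtain ⟨L, hL, hN, hG, ⟨D⟩⟩ := exists_dat (∅ : Finset GaussianInt) hI.w0 (k := 1) le_rfl
  have h := share D le_rfl hI ha
  have e0 : ∀ X : ℕ, NT (fun π => (2 : ℤ) ^ (1 + 2) ∣ π.norm - a) X = count (New 8 a) X := by
    intro X
    rw [NT_count]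
    unfold New
    norm_num
  have e1 : ∀ X : ℕ, NT (fun _ => True) X = count PrimaryPrime X := by
    intro X
    rw [NT_count]
    simp only [and_true]
  rw [pow_one] at h
  refine h.congr fun X => ?_
  rw [e0, e1]

end Pool.Agent.U695.QL
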